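import Mathlib

/-!
# Algebraic recurrence of random walks on groups: definitions (MP_646863_pr)

`G` is a group, `μ : PMF G` a probability measure on `G`, and `ζ : ℕ → G` the sequence of
increments of the walk.
-/

open MeasureTheory

namespace Pool.Agent.MP_646863_pr

/-- The walk with increments `ζ 0, ζ 1, …`: `walk ζ n = ζ 0 * ζ 1 * ⋯ * ζ (n - 1)`. -/
def walk {G : Type} [Group G] (ζ : ℕ → G) : ℕ → G
  | 0 => 1
  | n + 1 => walk ζ n * ζ n

/-- The subsemigroup `S_n` generated by `X_n, X_{n+1}, …`, where `X_m = walk ζ m`. -/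
def tailSemigroup {G : Type} [Group G] (ζ : ℕ → G) (n : ℕ) : Subsemigroup G :=
  Subsemigroup.closure {g : G | ∃ m : ℕ, n ≤ m ∧ walk ζ m = g}

/-- The law of an i.i.d. sequence of increments with law `μ`, on the product of countably many
copies of the discrete measurable space `G`. -/
noncomputable def pathLaw {G : Type} (μ : PMF G) :
    @Measure (ℕ → G) (@MeasurableSpace.pi ℕ (fun _ => G) (fun _ => ⊤)) :=
  @Measure.infinitePi ℕ (fun _ => G) (fun _ => ⊤) (fun _ => @PMF.toMeasure G ⊤ μ)

/-- Liouville property with respect to a finite set `S`: every bounded function which is harmonic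
for the simple random walk on the Cayley graph of `(G, S)` is constant. -/
def IsLiouville {G : Type} [Group G] (S : Finset G) : Prop :=
  ∀ f : G → ℝ, (∃ B : ℝ, ∀ g, |f g| ≤ B) →
    (∀ g, f g = (1 / (S.card : ℝ)) * ∑ s ∈ S, f (g * s)) → ∃ c : ℝ, ∀ g, f g = c

/-- Liouville property of a probability measure `μ`: every bounded `μ`-harmonic function is
constant. -/
def IsLiouvilleMeasure {G : Type} [Group G] (μ : PMF G) : Prop :=
  ∀ f : G → ℝ, (∃ B : ℝ, ∀ g, |f g| ≤ B) →
    (∀ g, f g = ∑' s, (μ s).toReal * f (g * s)) → ∃ c : ℝ, ∀ g, f g = c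

end Pool.Agent.MP_646863_pr
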