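import Pool.Agent.MP_646863_pr.Defs

/-!
# A Liouville group that is not algebraically recurrent: the proof (MP_646863_pr)

The group is the wreath product of `ℤ` by `ℤ`, that is the set of pairs `(f, z)` with `f` a Laurent
polynomial over `ℤ`, `z` an integer, and `(f, z) (g, w) = (f + T ^ z g, z + w)`. It is Liouville
with respect to the standard generating set. The measure `μ` takes the values `aa`, `tt` and
`(D k * Q k, 0)` (`k = 2, 3, …`) and their inverses, the element with index `k` and its inverse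
having probability `1 / (2 (k + 1) (k + 2))` each. Here `Q k` is the `k`-th iterate of
`x ↦ x ^ 2 - 6` at `T - 4` and the integers `D k` increase very fast. Almost surely there is a real
number `t` in `[1, 7]` such that the value at `t` of the Laurent polynomial of `X_m` is positive for
all large `m`, and the elements of the group with this property form a semigroup without the
identity.
-/

open MeasureTheory Filter

namespace Pool.Agent.MP_646863_pr

/-! ### The group -/

/-- Elements of the wreath product. -/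
@[ext] structure ZwrZ where
  lamp : LaurentPolynomial ℤ
  pos : ℤ

namespace ZwrZ

open LaurentPolynomial

noncomputable instance : Mul ZwrZ := ⟨fun x y => ⟨x.lamp + T x.pos * y.lamp, x.pos + y.pos⟩⟩
noncomputable instance : One ZwrZ := ⟨⟨0, 0⟩⟩
noncomputable instance : Inv ZwrZ := ⟨fun x => ⟨-(T (-x.pos) * x.lamp), -x.pos⟩⟩

@[simp] lemma mul_lamp (x y : ZwrZ) : (x * y).lamp = x.lamp + T x.pos * y.lamp := rfl
@[simp] lemma mul_pos' (x y : ZwrZ) : (x * y).pos = x.pos + y.pos := rfl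
@[simp] lemma one_lamp : (1 : ZwrZ).lamp = 0 := rfl
@[simp] lemma one_pos : (1 : ZwrZ).pos = 0 := rfl
@[simp] lemma inv_lamp (x : ZwrZ) : (x⁻¹).lamp = -(T (-x.pos) * x.lamp) := rfl
@[simp] lemma inv_pos' (x : ZwrZ) : (x⁻¹).pos = -x.pos := rfl

noncomputable instance : Group ZwrZ :=
  Group.ofLeftAxioms
    (by
      intro x y z
      ext1
      · simp only [mul_lamp, mul_pos', T_add]; ring
      · simp only [mul_pos']; ring)
    (by
      intro x
      ext1
      · simp
      · simp)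
    (by
      intro x
      ext1
      · simp only [mul_lamp, inv_lamp, inv_pos', one_lamp]; ring
      · simp)

/-- the lamp generator -/
noncomputable def aa : ZwrZ := ⟨1, 0⟩
/-- the shift generator -/
noncomputable def tt : ZwrZ := ⟨0, 1⟩

lemma lamp_mem (K : Subgroup ZwrZ) (hK : ∀ n : ℤ, (⟨T n, 0⟩ : ZwrZ) ∈ K)
    (f : LaurentPolynomial ℤ) : (⟨f, 0⟩ : ZwrZ) ∈ K := by
  have hadd : ∀ f g : LaurentPolynomial ℤ, (⟨f, 0⟩ : ZwrZ) ∈ K → (⟨g, 0⟩ : ZwrZ) ∈ K →
      (⟨f + g, 0⟩ : ZwrZ) ∈ K := by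
    intro f g hf hg
    have := K.mul_mem hf hg
    have h2 : (⟨f, 0⟩ : ZwrZ) * ⟨g, 0⟩ = ⟨f + g, 0⟩ := by
      ext1 <;> simp
    rwa [h2] at this
  have hneg : ∀ f : LaurentPolynomial ℤ, (⟨f, 0⟩ : ZwrZ) ∈ K → (⟨-f, 0⟩ : ZwrZ) ∈ K := by
    intro f hf
    have := K.inv_mem hf
    have h2 : (⟨f, 0⟩ : ZwrZ)⁻¹ = ⟨-f, 0⟩ := by
      ext1 <;> simp
    rwa [h2] at this
  have hzero : (⟨0, 0⟩ : ZwrZ) ∈ K := K.one_mem
  induction f using LaurentPolynomial.induction_on' with
  | add p q hp hq => exact hadd p q hp hq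
  | C_mul_T n a =>
    induction a using Int.induction_on with
    | zero => simpa using hzero
    | succ i hi =>
      have : (C ((i : ℤ) + 1) * T n : LaurentPolynomial ℤ) = C (i : ℤ) * T n + T n := by
        rw [map_add, map_one, add_mul, one_mul]
      rw [this]
      exact hadd _ _ hi (hK n)
    | pred i hi =>
      have : (C (-(i : ℤ) - 1) * T n : LaurentPolynomial ℤ) = C (-(i : ℤ)) * T n + -T n := by
        rw [map_sub, map_one, sub_mul, one_mul, sub_eq_add_neg]
      rw [this]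
      exact hadd _ _ hi (hneg _ (hK n))

lemma mem_of_gens (K : Subgroup ZwrZ) (ha : aa ∈ K) (ht : tt ∈ K) (g : ZwrZ) : g ∈ K := by
  have hpow : ∀ n : ℤ, (⟨0, n⟩ : ZwrZ) = tt ^ n := by
    intro n
    induction n using Int.induction_on with
    | zero => rfl
    | succ i hi =>
      rw [zpow_add_one, ← hi]
      ext1 <;> simp [tt]
    | pred i hi =>
      rw [zpow_sub_one, ← hi]
      ext1
      · simp [tt]
      · simp [tt]; ring
  have hT : ∀ n : ℤ, (⟨T n, 0⟩ : ZwrZ) ∈ K := by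
    intro n
    have : (⟨T n, 0⟩ : ZwrZ) = (⟨0, n⟩ : ZwrZ) * aa * (⟨0, n⟩ : ZwrZ)⁻¹ := by
      ext1 <;> simp [aa]
    rw [this, hpow]
    exact K.mul_mem (K.mul_mem (K.zpow_mem ht _) ha) (K.inv_mem (K.zpow_mem ht _))
  have : g = (⟨g.lamp, 0⟩ : ZwrZ) * ⟨0, g.pos⟩ := by
    ext1 <;> simp
  rw [this, hpow]
  exact K.mul_mem (lamp_mem K hT _) (K.zpow_mem ht _)

end ZwrZ

open ZwrZ

/-- A bounded above midpoint convex function on the integers is constant. -/
lemma convex_const (M : ℤ → ℝ) (B : ℝ) (hB : ∀ y, M y ≤ B)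
    (h : ∀ y, 2 * M y ≤ M (y + 1) + M (y - 1)) : ∀ y, M (y + 1) = M y := by
  have mono : ∀ (y : ℤ) (k : ℕ), M (y + 1) - M y ≤ M (y + k + 1) - M (y + k) := by
    intro y k
    induction k with
    | zero => simp
    | succ k ih =>
      have := h (y + k + 1)
      have e1 : (y + (k : ℤ) + 1 - 1) = y + k := by ring
      rw [e1] at this
      have e2 : (y + ((k + 1 : ℕ) : ℤ)) = y + k + 1 := by push_cast; ring
      rw [e2]
      linarith
  have up : ∀ (y : ℤ) (k : ℕ), M y + k * (M (y + 1) - M y) ≤ M (y + k) := by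
    intro y k
    induction k with
    | zero => simp
    | succ k ih =>
      have := mono y k
      have e2 : (y + ((k + 1 : ℕ) : ℤ)) = y + k + 1 := by push_cast; ring
      rw [e2]
      push_cast
      linarith
  have down : ∀ (y : ℤ) (k : ℕ), M y - k * (M y - M (y - 1)) ≤ M (y - k) := by
    intro y k
    induction k with
    | zero => simp
    | succ k ih =>
      have := mono (y - k - 1) k
      have e1 : (y - (k : ℤ) - 1 + 1) = y - k := by ring
      have e3 : (y - (k : ℤ) - 1 + k + 1) = y := by ring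
      have e4 : (y - (k : ℤ) - 1 + k) = y - 1 := by ring
      rw [e1, e3, e4] at this
      have e2 : (y - ((k + 1 : ℕ) : ℤ)) = y - k - 1 := by push_cast; ring
      rw [e2]
      push_cast
      linarith
  intro y
  apply le_antisymm
  · by_contra hlt
    push Not at hlt
    have hd : 0 < M (y + 1) - M y := by linarith
    obtain ⟨k, hk⟩ := exists_nat_gt ((B - M y) / (M (y + 1) - M y))
    rw [div_lt_iff₀ hd] at hk
    have := up y k
    have := hB (y + k)
    linarith
  · by_contra hlt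
    push Not at hlt
    have hd : 0 < M y - M (y + 1) := by linarith
    obtain ⟨k, hk⟩ := exists_nat_gt ((B - M (y + 1)) / (M y - M (y + 1)))
    rw [div_lt_iff₀ hd] at hk
    have h1 := down (y + 1) k
    have e1 : (y + 1 - 1 : ℤ) = y := by ring
    rw [e1] at h1
    have := hB (y + 1 - k)
    linarith

/-- Data of a step law on the wreath product for which the projection to the integers is a lazy
simple random walk. -/
structure StepLaw (p : ZwrZ → ℝ) : Prop where
  nonneg : ∀ s, 0 ≤ p s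
  sum_one : HasSum p 1
  supp : ∀ s, p s ≠ 0 → s.pos = 0 ∨ s = tt ∨ s = tt⁻¹
  symm : p tt⁻¹ = p tt
  tt_pos : 0 < p tt
  aa_pos : 0 < p aa

lemma tt_ne : (tt : ZwrZ) ≠ tt⁻¹ := by
  intro h
  have := congrArg ZwrZ.pos h
  simp [tt] at this

/-- The fibrewise supremum of a bounded harmonic function is constant. -/
lemma sup_const {p : ZwrZ → ℝ} (hp : StepLaw p) (u : ZwrZ → ℝ) (B : ℝ) (hB : ∀ g, |u g| ≤ B)
    (hu : ∀ g, HasSum (fun s => p s * u (g * s)) (u g)) (y : ℤ) :
    (⨆ f : LaurentPolynomial ℤ, u ⟨f, y + 1⟩) = ⨆ f : LaurentPolynomial ℤ, u ⟨f, y⟩ := by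
  classical
  have hbdd : ∀ y : ℤ, BddAbove (Set.range fun f : LaurentPolynomial ℤ => u ⟨f, y⟩) := by
    intro y
    refine ⟨B, ?_⟩
    rintro _ ⟨f, rfl⟩
    exact (abs_le.1 (hB _)).2
  have hle : ∀ g : ZwrZ, u g ≤ ⨆ f : LaurentPolynomial ℤ, u ⟨f, g.pos⟩ := fun g =>
    le_ciSup (hbdd g.pos) g.lamp
  set M : ℤ → ℝ := fun y => ⨆ f : LaurentPolynomial ℤ, u ⟨f, y⟩ with hM
  have hMB : ∀ y, M y ≤ B := fun y => ciSup_le fun f => (abs_le.1 (hB _)).2
  have key : ∀ y, 2 * M y ≤ M (y + 1) + M (y - 1) := by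
    intro y
    have h1 : ∀ f : LaurentPolynomial ℤ,
        u ⟨f, y⟩ ≤ M y + p tt * (M (y + 1) - M y) + p tt * (M (y - 1) - M y) := by
      intro f
      have hs1 : HasSum (fun s => p s * M y + (if s = tt then p tt * (M (y + 1) - M y) else 0)
          + (if s = tt⁻¹ then p tt * (M (y - 1) - M y) else 0))
          (1 * M y + p tt * (M (y + 1) - M y) + p tt * (M (y - 1) - M y)) :=
        ((hp.sum_one.mul_right (M y)).add (hasSum_ite_eq tt _)).add (hasSum_ite_eq tt⁻¹ _)
      rw [one_mul] at hs1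
      refine hasSum_le ?_ (hu ⟨f, y⟩) hs1
      intro s
      by_cases h0 : p s = 0
      · have h2 : s ≠ tt := by
          rintro rfl
          exact hp.tt_pos.ne' h0
        have h3 : s ≠ tt⁻¹ := by
          rintro rfl
          rw [hp.symm] at h0
          exact hp.tt_pos.ne' h0
        simp [h0, h2, h3]
      · by_cases h2 : s = tt
        · subst h2
          have := hle (⟨f, y⟩ * tt)
          simp only [if_neg tt_ne, if_true]
          have h5 : u (⟨f, y⟩ * tt) ≤ M (y + 1) := by simpa [tt] using this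
          nlinarith [hp.tt_pos, mul_le_mul_of_nonneg_left h5 hp.tt_pos.le]
        · by_cases h3 : s = tt⁻¹
          · subst h3
            have := hle (⟨f, y⟩ * tt⁻¹)
            simp only [if_neg tt_ne.symm, if_true, hp.symm]
            have h5 : u (⟨f, y⟩ * tt⁻¹) ≤ M (y - 1) := by
              have e : (⟨f, y⟩ * tt⁻¹ : ZwrZ).pos = y - 1 := by simp [tt, sub_eq_add_neg]
              rw [e] at this
              exact this
            nlinarith [hp.tt_pos, mul_le_mul_of_nonneg_left h5 hp.tt_pos.le]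
          · have hs0 : s.pos = 0 := by
              rcases hp.supp s h0 with h | h | h
              · exact h
              · exact absurd h h2
              · exact absurd h h3
            have := hle (⟨f, y⟩ * s)
            have e : (⟨f, y⟩ * s : ZwrZ).pos = y := by simp [hs0]
            rw [e] at this
            simp only [if_neg h2, if_neg h3, add_zero]
            exact mul_le_mul_of_nonneg_left this (hp.nonneg s)
    have h2 : M y ≤ M y + p tt * (M (y + 1) - M y) + p tt * (M (y - 1) - M y) := ciSup_le h1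
    have h3 : 0 ≤ p tt * (M (y + 1) + M (y - 1) - 2 * M y) := by linarith
    have h4 := nonneg_of_mul_nonneg_right h3 hp.tt_pos
    linarith
  exact convex_const M B hMB key y

lemma sup_const' {p : ZwrZ → ℝ} (hp : StepLaw p) (u : ZwrZ → ℝ) (B : ℝ) (hB : ∀ g, |u g| ≤ B)
    (hu : ∀ g, HasSum (fun s => p s * u (g * s)) (u g)) (y z : ℤ) :
    (⨆ f : LaurentPolynomial ℤ, u ⟨f, y⟩) = ⨆ f : LaurentPolynomial ℤ, u ⟨f, z⟩ := by
  have h := sup_const hp u B hB hu
  have h0 : ∀ y : ℤ, (⨆ f : LaurentPolynomial ℤ, u ⟨f, y⟩) = ⨆ f : LaurentPolynomial ℤ, u ⟨f, 0⟩ := by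
    intro y
    induction y using Int.induction_on with
    | zero => rfl
    | succ i hi => rw [h, hi]
    | pred i hi =>
      have := h (-(i : ℤ) - 1)
      rw [sub_add_cancel] at this
      rw [← this, hi]
  rw [h0 y, h0 z]

/-- Left translation by a single lamp does not increase a bounded harmonic function. -/
lemma lamp_le {p : ZwrZ → ℝ} (hp : StepLaw p) (h : ZwrZ → ℝ) (B : ℝ) (hB : ∀ g, |h g| ≤ B)
    (hh : ∀ g, HasSum (fun s => p s * h (g * s)) (h g)) (x : ℤ) (g : ZwrZ) :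
    h ((⟨LaurentPolynomial.T x, 0⟩ : ZwrZ) * g) ≤ h g := by
  set c : ZwrZ := ⟨LaurentPolynomial.T x, 0⟩ with hc
  set u : ZwrZ → ℝ := fun g => h (c * g) - h g with hu
  have hu1 : ∀ g, HasSum (fun s => p s * u (g * s)) (u g) := by
    intro g
    have h1 := (hh (c * g)).sub (hh g)
    have h2 : (fun s => p s * u (g * s)) = fun s => p s * h (c * g * s) - p s * h (g * s) := by
      funext s
      simp only [hu, mul_assoc]
      ring
    rw [h2]
    exact h1
  have huB : ∀ g, |u g| ≤ 2 * B := by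
    intro g
    have h1 := hB (c * g)
    have h2 := hB g
    rw [abs_le] at h1 h2 ⊢
    constructor <;> simp only [hu] <;> linarith [h1.1, h1.2, h2.1, h2.2]
  have hbdd : ∀ y : ℤ, BddAbove (Set.range fun f : LaurentPolynomial ℤ => u ⟨f, y⟩) := by
    intro y
    refine ⟨2 * B, ?_⟩
    rintro _ ⟨f, rfl⟩
    exact (abs_le.1 (huB _)).2
  set M : ℝ := ⨆ f : LaurentPolynomial ℤ, u ⟨f, x⟩ with hM
  have huM : ∀ g, u g ≤ M := by
    intro g
    rw [hM, sup_const' hp u (2 * B) huB hu1 x g.pos]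
    exact le_ciSup (hbdd g.pos) g.lamp
  -- one step estimate
  have hstep : ∀ g, M - u (g * aa) ≤ (M - u g) / p aa := by
    intro g
    rw [le_div_iff₀ hp.aa_pos]
    have h1 : HasSum (fun s => p s * M - p s * u (g * s)) (1 * M - u g) :=
      (hp.sum_one.mul_right M).sub (hu1 g)
    rw [one_mul] at h1
    have h2 := le_hasSum h1 aa (fun s _ => by
      have := mul_le_mul_of_nonneg_left (huM (g * s)) (hp.nonneg s)
      linarith)
    linarith
  have hcomm : ∀ g : ZwrZ, g.pos = x → c * g = g * aa := by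
    intro g hg
    ext1
    · simp [hc, aa, hg, add_comm]
    · simp [hc, aa]
  have hclaim : ∀ k : ℕ, ∃ C : ℝ, 0 ≤ C ∧ ∀ g : ZwrZ, g.pos = x →
      k * M - C * (M - u g) ≤ h (g * aa ^ k) - h g := by
    intro k
    induction k with
    | zero => exact ⟨0, le_rfl, by intro g _; simp⟩
    | succ k ih =>
      obtain ⟨C, hC, hk⟩ := ih
      refine ⟨1 + C / p aa, by have := div_nonneg hC hp.aa_pos.le; linarith, ?_⟩
      intro g hg
      have h1 := hk (g * aa) (by simp [aa, hg])
      have h2 := hstep g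
      have h3 : u g = h (g * aa) - h g := by
        simp only [hu]; rw [hcomm g hg]
      have h4 : C * (M - u (g * aa)) ≤ C * ((M - u g) / p aa) := mul_le_mul_of_nonneg_left h2 hC
      have h5 : g * aa ^ (k + 1) = g * aa * aa ^ k := by rw [pow_succ', mul_assoc]
      rw [h5]
      have h6 : C * ((M - u g) / p aa) = C / p aa * (M - u g) := by ring
      push_cast
      rw [h6] at h4
      linarith
  have hkM : ∀ k : ℕ, k * M ≤ 2 * B := by
    intro k
    by_contra hlt
    push Not at hlt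
    obtain ⟨C, hC, hk⟩ := hclaim k
    have hC1 : 0 < C + 1 := by linarith
    have hδ : 0 < (k * M - 2 * B) / (C + 1) := div_pos (by linarith) hC1
    obtain ⟨f, hf⟩ := exists_lt_of_lt_ciSup (show M - (k * M - 2 * B) / (C + 1) <
      ⨆ f : LaurentPolynomial ℤ, u ⟨f, x⟩ by rw [← hM]; linarith)
    have h1 := hk ⟨f, x⟩ rfl
    have h2 := hB (⟨f, x⟩ * aa ^ k)
    have h3 := hB ⟨f, x⟩
    rw [abs_le] at h2 h3
    have h4 : C * (M - u ⟨f, x⟩) ≤ C * ((k * M - 2 * B) / (C + 1)) :=
      mul_le_mul_of_nonneg_left (by linarith) hC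
    have h5 : C * ((k * M - 2 * B) / (C + 1)) < k * M - 2 * B := by
      rw [mul_div_assoc', div_lt_iff₀ hC1]
      nlinarith
    linarith [h2.1, h2.2, h3.1, h3.2]
  have hM0 : M ≤ 0 := by
    by_contra hlt
    push Not at hlt
    obtain ⟨k, hk⟩ := exists_nat_gt (2 * B / M)
    rw [div_lt_iff₀ hlt] at hk
    linarith [hkM k]
  have := huM g
  simp only [hu] at this
  linarith

/-- Every bounded harmonic function of a step law as above is constant. -/
theorem liouville_of_stepLaw {p : ZwrZ → ℝ} (hp : StepLaw p) (h : ZwrZ → ℝ)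
    (hb : ∃ B : ℝ, ∀ g, |h g| ≤ B)
    (hh : ∀ g, HasSum (fun s => p s * h (g * s)) (h g)) (g g' : ZwrZ) : h g = h g' := by
  obtain ⟨B, hB⟩ := hb
  have hinv : ∀ (x : ℤ) (g : ZwrZ), h ((⟨LaurentPolynomial.T x, 0⟩ : ZwrZ) * g) = h g := by
    intro x g
    apply le_antisymm (lamp_le hp h B hB hh x g)
    have := lamp_le hp (fun g => -h g) B (fun g => by simpa using hB g)
      (fun g => by simpa using (hh g).neg) x g
    simpa using this
  let K : Subgroup ZwrZ :=
    { carrier := {k | ∀ g, h (k * g) = h g}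
      mul_mem' := by
        intro a b ha hb g
        rw [mul_assoc, ha, hb]
      one_mem' := by intro g; simp
      inv_mem' := by
        intro a ha g
        rw [← ha (a⁻¹ * g), mul_inv_cancel_left] }
  have hK : ∀ f : LaurentPolynomial ℤ, ∀ g, h ((⟨f, 0⟩ : ZwrZ) * g) = h g :=
    fun f => lamp_mem K (fun n => hinv n) f
  have hpos : ∀ g : ZwrZ, h g = h ⟨0, g.pos⟩ := by
    intro g
    have := hK g.lamp ⟨0, g.pos⟩
    rw [← this]
    congr 1
    ext1 <;> simp
  have hsup : ∀ y : ℤ, (⨆ f : LaurentPolynomial ℤ, h ⟨f, y⟩) = h ⟨0, y⟩ := by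
    intro y
    have : (fun f : LaurentPolynomial ℤ => h ⟨f, y⟩) = fun _ => h ⟨0, y⟩ := by
      funext f
      exact hpos ⟨f, y⟩
    rw [this]
    exact ciSup_const
  rw [hpos g, hpos g', ← hsup, ← hsup]
  exact sup_const' hp h B hB hh _ _

/-! ### The increments -/

/-- Iterates of the quadratic map `x ↦ x ^ 2 - 6`. -/
def F : ℕ → ℝ → ℝ
  | 0, x => x
  | k + 1, x => F k x ^ 2 - 6

lemma F_succ' (k : ℕ) (x : ℝ) : F (k + 1) x = F k (x ^ 2 - 6) := by
  induction k with
  | zero => rfl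
  | succ k ih =>
    show F (k + 1) x ^ 2 - 6 = F k (x ^ 2 - 6) ^ 2 - 6
    rw [ih]

lemma F_continuous (k : ℕ) : Continuous (F k) := by
  induction k with
  | zero => exact continuous_id
  | succ k ih =>
    show Continuous fun x => F k x ^ 2 - 6
    fun_prop

lemma fin_orbit (n : ℕ) : ∀ s : ℕ → ℝ, (∀ k, s k = 1 ∨ s k = -1) →
    ∃ x : ℝ, ∀ k ≤ n, 1 ≤ s k * F k x ∧ s k * F k x ≤ 3 := by
  induction n with
  | zero =>
    intro s hs
    refine ⟨s 0 * 2, ?_⟩
    intro k hk
    obtain rfl : k = 0 := by omega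
    show 1 ≤ s 0 * (s 0 * 2) ∧ s 0 * (s 0 * 2) ≤ 3
    rcases hs 0 with h | h <;> rw [h] <;> norm_num
  | succ n ih =>
    intro s hs
    obtain ⟨y, hy⟩ := ih (fun k => s (k + 1)) (fun k => hs (k + 1))
    have hy0 := hy 0 (Nat.zero_le _)
    have hyb : -3 ≤ y ∧ y ≤ 3 := by
      have h1 : 1 ≤ s 1 * y ∧ s 1 * y ≤ 3 := hy0
      rcases hs 1 with h | h <;> rw [h] at h1 <;> constructor <;> linarith [h1.1, h1.2]
    have hsq : Real.sqrt (6 + y) ^ 2 = 6 + y := Real.sq_sqrt (by linarith)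
    have hs0 : s 0 * s 0 = 1 := by rcases hs 0 with h | h <;> rw [h] <;> norm_num
    have hx : (s 0 * Real.sqrt (6 + y)) ^ 2 - 6 = y := by
      rw [mul_pow, hsq, pow_two, hs0]; ring
    refine ⟨s 0 * Real.sqrt (6 + y), ?_⟩
    intro k hk
    rcases k with _ | k
    · show 1 ≤ s 0 * (s 0 * Real.sqrt (6 + y)) ∧ s 0 * (s 0 * Real.sqrt (6 + y)) ≤ 3
      rw [← mul_assoc, hs0, one_mul]
      constructor
      · rw [Real.le_sqrt' (by norm_num)]
        linarith
      · rw [Real.sqrt_le_left (by norm_num)]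
        linarith
    · rw [F_succ', hx]
      exact hy k (by omega)

lemma exists_orbit (s : ℕ → ℝ) (hs : ∀ k, s k = 1 ∨ s k = -1) :
    ∃ x : ℝ, ∀ k, 1 ≤ s k * F k x ∧ s k * F k x ≤ 3 := by
  let Z : ℕ → Set ℝ := fun n => {x | x ∈ Set.Icc (-3 : ℝ) 3 ∧
    ∀ k ≤ n, 1 ≤ s k * F k x ∧ s k * F k x ≤ 3}
  have hcl : ∀ n, IsClosed (Z n) := by
    intro n
    have : Z n = Set.Icc (-3 : ℝ) 3 ∩ ⋂ k ≤ n, ({x | 1 ≤ s k * F k x} ∩ {x | s k * F k x ≤ 3}) := by
      ext x
      simp [Z]
    rw [this]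
    refine isClosed_Icc.inter (isClosed_biInter fun k _ => ?_)
    exact (isClosed_le continuous_const (continuous_const.mul (F_continuous k))).inter
      (isClosed_le (continuous_const.mul (F_continuous k)) continuous_const)
  have hne : ∀ n, (Z n).Nonempty := by
    intro n
    obtain ⟨x, hx⟩ := fin_orbit n s hs
    refine ⟨x, ?_, hx⟩
    have h1 : 1 ≤ s 0 * x ∧ s 0 * x ≤ 3 := hx 0 (Nat.zero_le _)
    rcases hs 0 with h | h <;> rw [h] at h1 <;> constructor <;> linarith [h1.1, h1.2]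
  have hcomp : IsCompact (Z 0) :=
    isCompact_Icc.of_isClosed_subset (hcl 0) (fun x hx => hx.1)
  obtain ⟨x, hx⟩ := IsCompact.nonempty_iInter_of_sequence_nonempty_isCompact_isClosed Z
    (fun n x hx => ⟨hx.1, fun k hk => hx.2 k (by omega)⟩) hne hcomp hcl
  rw [Set.mem_iInter] at hx
  exact ⟨x, fun k => (hx k).2 k le_rfl⟩

/-- The polynomials `Q k` with `Q k (t) = F k (t - 4)`. -/
noncomputable def Q : ℕ → LaurentPolynomial ℤ
  | 0 => LaurentPolynomial.T 1 - 4
  | k + 1 => Q k ^ 2 - 6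

/-- A deterministic time scale. -/
noncomputable def N (k : ℕ) : ℕ := (k + 2) * ⌈2 * Real.log (k + 2)⌉₊

/-- Rapidly increasing coefficients. -/
noncomputable def D : ℕ → ℕ
  | 0 => 1
  | k + 1 => (3 * N (k + 1) + 1) * 49 ^ (N (k + 1)) * D k

lemma D_pos (k : ℕ) : 1 ≤ D k := by
  induction k with
  | zero => exact le_rfl
  | succ k ih =>
    show 1 ≤ (3 * N (k + 1) + 1) * 49 ^ (N (k + 1)) * D k
    have : 1 ≤ 49 ^ (N (k + 1)) := Nat.one_le_pow _ _ (by norm_num)
    exact Nat.one_le_iff_ne_zero.2 (by positivity)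

lemma D_mono : Monotone D := by
  refine monotone_nat_of_le_succ fun k => ?_
  show D k ≤ (3 * N (k + 1) + 1) * 49 ^ (N (k + 1)) * D k
  have : 1 ≤ 49 ^ (N (k + 1)) := Nat.one_le_pow _ _ (by norm_num)
  refine Nat.le_mul_of_pos_left _ ?_
  positivity

/-- The sequence of group elements used as increments. -/
noncomputable def gen : ℕ → ZwrZ
  | 0 => aa
  | 1 => tt
  | k + 2 => ⟨(D (k + 2) : LaurentPolynomial ℤ) * Q (k + 2), 0⟩

/-- The increment with code `x`. -/
noncomputable def inc (x : ℕ × Bool) : ZwrZ := if x.2 then gen x.1 else (gen x.1)⁻¹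

/-- Evaluation at a unit of the reals. -/
noncomputable def ev (t : ℝˣ) : LaurentPolynomial ℤ →+* ℝ :=
  LaurentPolynomial.eval₂ (Int.castRingHom ℝ) t

lemma ev_T (t : ℝˣ) (n : ℤ) : ev t (LaurentPolynomial.T n) = (t : ℝ) ^ n := by
  unfold ev
  rw [LaurentPolynomial.eval₂_T]
  simp

lemma ev_Q (t : ℝˣ) (k : ℕ) : ev t (Q k) = F k ((t : ℝ) - 4) := by
  induction k with
  | zero =>
    show ev t (LaurentPolynomial.T 1 - 4) = (t : ℝ) - 4
    rw [map_sub, ev_T, map_ofNat]
    simp
  | succ k ih =>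
    show ev t (Q k ^ 2 - 6) = F k ((t : ℝ) - 4) ^ 2 - 6
    rw [map_sub, map_pow, ih, map_ofNat]

/-- sign of a Boolean -/
def sgn (b : Bool) : ℝ := if b then 1 else -1

lemma sgn_eq (b : Bool) : sgn b = 1 ∨ sgn b = -1 := by
  cases b <;> simp [sgn]

lemma ev_inc_lamp (t : ℝˣ) (k : ℕ) (b : Bool) :
    ev t (inc (k + 2, b)).lamp = sgn b * (D (k + 2) * F (k + 2) ((t : ℝ) - 4)) := by
  have h : ev t ((D (k + 2) : LaurentPolynomial ℤ) * Q (k + 2)) =
      D (k + 2) * F (k + 2) ((t : ℝ) - 4) := by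
    rw [map_mul, map_natCast, ev_Q]
  cases b
  · simp only [inc, gen, sgn]
    simp [h]
  · simp only [inc, gen, sgn]
    simp [h]

lemma inc_pos_abs (x : ℕ × Bool) : |(inc x).pos| ≤ 1 := by
  obtain ⟨k, b⟩ := x
  rcases k with _ | _ | k <;> cases b <;> simp [inc, gen, aa, tt]

lemma ev_inc_bound (t : ℝˣ) (hF : ∀ k, |F k ((t : ℝ) - 4)| ≤ 3) (x : ℕ × Bool) :
    |ev t (inc x).lamp| ≤ 3 * D x.1 := by
  obtain ⟨k, b⟩ := x
  rcases k with _ | _ | k
  · have h1 : |ev t (inc (0, b)).lamp| = 1 := by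
      cases b <;> simp [inc, gen, aa]
    rw [h1]
    have : (1 : ℝ) ≤ D 0 := by exact_mod_cast D_pos 0
    show (1 : ℝ) ≤ 3 * D 0
    linarith
  · have h1 : ev t (inc (1, b)).lamp = 0 := by
      cases b <;> simp [inc, gen, tt]
    show |ev t (inc (1, b)).lamp| ≤ _
    rw [h1, abs_zero]
    positivity
  · show |ev t (inc (k + 2, b)).lamp| ≤ 3 * D (k + 2)
    rw [ev_inc_lamp]
    have h2 : |sgn b| = 1 := by rcases sgn_eq b with h | h <;> rw [h] <;> simp
    rw [abs_mul, h2, one_mul, abs_mul, Nat.abs_cast, mul_comm]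
    exact mul_le_mul_of_nonneg_right (hF (k + 2)) (by positivity)

/-! ### Random walk and the tail semigroup -/

lemma walk_pos_abs (ω : ℕ → ℕ × Bool) (m : ℕ) :
    |(walk (fun i => inc (ω i)) m).pos| ≤ m := by
  induction m with
  | zero => simp [walk]
  | succ m ih =>
    show |(walk (fun i => inc (ω i)) m * inc (ω m)).pos| ≤ ((m + 1 : ℕ) : ℤ)
    rw [mul_pos']
    have h1 := inc_pos_abs (ω m)
    have h2 := abs_add_le (walk (fun i => inc (ω i)) m).pos (inc (ω m)).pos
    push_cast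
    linarith

lemma ev_walk (t : ℝˣ) (ω : ℕ → ℕ × Bool) (m : ℕ) :
    ev t (walk (fun i => inc (ω i)) m).lamp =
      ∑ i ∈ Finset.range m, (t : ℝ) ^ (walk (fun i => inc (ω i)) i).pos *
        ev t (inc (ω i)).lamp := by
  induction m with
  | zero => simp [walk]
  | succ m ih =>
    rw [Finset.sum_range_succ, ← ih]
    show ev t (walk (fun i => inc (ω i)) m * inc (ω m)).lamp = _
    rw [mul_lamp, map_add, map_mul, ev_T]

lemma zpow_le_of_abs {t : ℝ} (h1 : 1 ≤ t) (h7 : t ≤ 7) {z : ℤ} {n : ℕ} (hz : |z| ≤ n) :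
    t ^ z ≤ 7 ^ n := by
  have hz' := abs_le.1 hz
  calc t ^ z ≤ t ^ (n : ℤ) := zpow_le_zpow_right₀ h1 hz'.2
    _ = t ^ n := zpow_natCast t n
    _ ≤ 7 ^ n := pow_le_pow_left₀ (by linarith) h7 n

lemma le_zpow_of_abs {t : ℝ} (h1 : 1 ≤ t) (h7 : t ≤ 7) {z : ℤ} {n : ℕ} (hz : |z| ≤ n) :
    ((7 : ℝ) ^ n)⁻¹ ≤ t ^ z := by
  have ht : 0 < t := by linarith
  have h2 := zpow_le_of_abs h1 h7 (z := -z) (n := n) (by rwa [abs_neg])
  rw [zpow_neg] at h2
  have h3 : 0 < t ^ z := zpow_pos ht z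
  exact inv_le_of_inv_le₀ h3 h2

/-- Domination of the record increment. -/
lemma D_dom (M : ℕ) (hM : 1 ≤ M) :
    (N M : ℝ) * (7 ^ (N M) * (3 * D (M - 1))) < ((7 : ℝ) ^ (N M))⁻¹ * D M := by
  obtain ⟨k, rfl⟩ : ∃ k, M = k + 1 := ⟨M - 1, by omega⟩
  rw [Nat.add_sub_cancel]
  have hD : (D (k + 1) : ℝ) = (3 * N (k + 1) + 1) * 49 ^ (N (k + 1)) * D k := by
    have : D (k + 1) = (3 * N (k + 1) + 1) * 49 ^ (N (k + 1)) * D k := rfl
    rw [this]
    push_cast
    ring
  have hDk : (1 : ℝ) ≤ D k := by exact_mod_cast D_pos k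
  have h49 : (49 : ℝ) ^ (N (k + 1)) = 7 ^ (N (k + 1)) * 7 ^ (N (k + 1)) := by
    rw [← mul_pow]; norm_num
  have h7 : (0 : ℝ) < 7 ^ (N (k + 1)) := by positivity
  rw [hD, h49, inv_mul_eq_div, lt_div_iff₀ h7]
  have hN : (0 : ℝ) ≤ N (k + 1) := by positivity
  nlinarith [mul_pos (mul_pos h7 h7) (lt_of_lt_of_le one_pos hDk)]

/-- The deterministic part: if every large index occurs at most once before time `N K`, and an
index larger than `K` occurs before time `N K`, then there is an evaluation point at which all the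
late positions of the walk have positive lamp value. -/
lemma deterministic (ω : ℕ → ℕ × Bool) (K0 : ℕ) (hK0 : 1 ≤ K0)
    (hA : ∀ K, K0 ≤ K → ∃ i < N K, K < (ω i).1)
    (hB : ∀ K, K0 ≤ K → ∀ i < N K, ∀ j < N K, (ω i).1 = K → (ω j).1 = K → i = j) :
    ∃ t : ℝˣ, 0 < (t : ℝ) ∧ ∀ m, N K0 ≤ m → 0 < ev t (walk (fun i => inc (ω i)) m).lamp := by
  classical
  let s : ℕ → ℝ := fun k => if h : ∃ i, i < N k ∧ (ω i).1 = k then sgn (ω h.choose).2 else 1
  have hs : ∀ k, s k = 1 ∨ s k = -1 := by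
    intro k
    by_cases h : ∃ i, i < N k ∧ (ω i).1 = k
    · simp only [s, dif_pos h]
      exact sgn_eq _
    · simp only [s, dif_neg h]
      left; trivial
  obtain ⟨x, hx⟩ := exists_orbit s hs
  have hF : ∀ k, |F k x| ≤ 3 := by
    intro k
    rw [abs_le]
    rcases hs k with h | h <;> have := hx k <;> rw [h] at this <;> constructor <;>
      linarith [this.1, this.2]
  have hx0 := abs_le.1 (hF 0)
  have hx1 : -3 ≤ x ∧ x ≤ 3 := hx0
  have ht0 : x + 4 ≠ 0 := by linarith [hx1.1]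
  refine ⟨Units.mk0 (x + 4) ht0, by simp only [Units.val_mk0]; linarith [hx1.1], ?_⟩
  set t : ℝˣ := Units.mk0 (x + 4) ht0 with ht
  have htv : (t : ℝ) = x + 4 := rfl
  have hFt : ∀ k, |F k ((t : ℝ) - 4)| ≤ 3 := by
    intro k
    rw [htv, add_sub_cancel_right]
    exact hF k
  have h1t : 1 ≤ (t : ℝ) := by rw [htv]; linarith [hx1.1]
  have h7t : (t : ℝ) ≤ 7 := by rw [htv]; linarith [hx1.2]
  intro m hm
  -- the record index
  obtain ⟨i0, hi0, hi0K⟩ := hA K0 le_rfl
  have hi0m : i0 ∈ Finset.range m := Finset.mem_range.2 (lt_of_lt_of_le hi0 hm)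
  obtain ⟨τ, hτm, hτ⟩ := Finset.exists_max_image (Finset.range m) (fun i => (ω i).1) ⟨i0, hi0m⟩
  set M := (ω τ).1 with hM
  have hKM : K0 < M := lt_of_lt_of_le hi0K (hτ i0 hi0m)
  obtain ⟨i1, hi1, hi1M⟩ := hA M hKM.le
  have hmN : m < N M := by
    have : m ≤ i1 := by
      by_contra hlt
      push Not at hlt
      exact absurd (hτ i1 (Finset.mem_range.2 hlt)) (not_le.2 hi1M)
    exact lt_of_le_of_lt this hi1
  have hτN : τ < N M := (Finset.mem_range.1 hτm).trans hmN
  have hlt : ∀ i ∈ (Finset.range m).erase τ, (ω i).1 ≤ M - 1 := by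
    intro i hi
    rw [Finset.mem_erase, Finset.mem_range] at hi
    have h1 := hτ i (Finset.mem_range.2 hi.2)
    have h2 : (ω i).1 ≠ M := by
      intro h
      exact hi.1 (hB M hKM.le i (hi.2.trans hmN) τ hτN h rfl)
    have h3 : (ω i).1 ≤ M := h1
    omega
  -- sign of the record
  have hsM : s M = sgn (ω τ).2 := by
    have h : ∃ i, i < N M ∧ (ω i).1 = M := ⟨τ, hτN, rfl⟩
    have h1 : s M = sgn (ω h.choose).2 := by simp only [s]; rw [dif_pos h]
    have h2 : h.choose = τ :=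
      hB M hKM.le _ h.choose_spec.1 τ hτN h.choose_spec.2 rfl
    rw [h1, h2]
  have hmain : (D M : ℝ) ≤ ev t (inc (ω τ)).lamp := by
    obtain ⟨k, hk⟩ : ∃ k, M = k + 2 := ⟨M - 2, by omega⟩
    have h1 : ω τ = (k + 2, (ω τ).2) := by
      rw [← hk]
    rw [h1, ev_inc_lamp, htv, add_sub_cancel_right, ← hk, ← hsM]
    have h2 := (hx M).1
    have h3 : (0 : ℝ) ≤ D M := by positivity
    nlinarith
  rw [ev_walk, ← Finset.add_sum_erase _ _ hτm]
  have hpos : ∀ i ∈ Finset.range m, |(walk (fun i => inc (ω i)) i).pos| ≤ (N M : ℕ) := by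
    intro i hi
    refine (walk_pos_abs ω i).trans ?_
    have := Finset.mem_range.1 hi
    exact_mod_cast (this.trans hmN).le
  have hfirst : ((7 : ℝ) ^ (N M))⁻¹ * D M ≤
      (t : ℝ) ^ (walk (fun i => inc (ω i)) τ).pos * ev t (inc (ω τ)).lamp := by
    refine mul_le_mul (le_zpow_of_abs h1t h7t (hpos τ hτm)) hmain (by positivity) ?_
    exact (zpow_pos (by linarith) _).le
  have hrest : |∑ i ∈ (Finset.range m).erase τ, (t : ℝ) ^ (walk (fun i => inc (ω i)) i).pos *
        ev t (inc (ω i)).lamp| ≤ (N M : ℝ) * (7 ^ (N M) * (3 * D (M - 1))) := by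
    refine (Finset.abs_sum_le_sum_abs _ _).trans ?_
    have hb : ∀ i ∈ (Finset.range m).erase τ, |(t : ℝ) ^ (walk (fun i => inc (ω i)) i).pos *
        ev t (inc (ω i)).lamp| ≤ 7 ^ (N M) * (3 * D (M - 1)) := by
      intro i hi
      rw [abs_mul, abs_of_pos (zpow_pos (by linarith : (0 : ℝ) < (t : ℝ)) _)]
      refine mul_le_mul (zpow_le_of_abs h1t h7t (hpos i (Finset.mem_of_mem_erase hi))) ?_
        (abs_nonneg _) (by positivity)
      refine (ev_inc_bound t hFt (ω i)).trans ?_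
      have : (D (ω i).1 : ℝ) ≤ D (M - 1) := by exact_mod_cast D_mono (hlt i hi)
      linarith
    refine (Finset.sum_le_card_nsmul _ _ _ hb).trans ?_
    rw [nsmul_eq_mul]
    refine mul_le_mul_of_nonneg_right ?_ (by positivity)
    have h1 : ((Finset.range m).erase τ).card ≤ m := by
      refine (Finset.card_erase_le).trans ?_
      simp
    exact_mod_cast h1.trans hmN.le
  have hdom := D_dom M (by omega)
  have := (abs_le.1 hrest).1
  linarith

lemma one_notMem_of_pos (t : ℝˣ) (ht : 0 < (t : ℝ)) (ζ : ℕ → ZwrZ) (n : ℕ)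
    (h : ∀ m, n ≤ m → 0 < ev t (walk ζ m).lamp) : (1 : ZwrZ) ∉ tailSemigroup ζ n := by
  let P : Subsemigroup ZwrZ :=
    { carrier := {g | 0 < ev t g.lamp}
      mul_mem' := by
        intro a b ha hb
        show 0 < ev t (a * b).lamp
        rw [mul_lamp, map_add, map_mul, ev_T]
        have ha' : 0 < ev t a.lamp := ha
        have hb' : 0 < ev t b.lamp := hb
        have := mul_pos (zpow_pos ht a.pos) hb'
        linarith }
  have hP : tailSemigroup ζ n ≤ P := by
    refine Subsemigroup.closure_le.2 ?_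
    rintro g ⟨m, hm, rfl⟩
    exact h m hm
  intro h1
  have : 0 < ev t (1 : ZwrZ).lamp := hP h1
  simp at this

/-! ### Probability -/

lemma hasSum_telescope : HasSum (fun k : ℕ => 1 / (((k : ℝ) + 1) * (k + 2))) 1 := by
  rw [hasSum_iff_tendsto_nat_of_nonneg (fun k => by positivity)]
  have h : ∀ n : ℕ, ∑ k ∈ Finset.range n, 1 / (((k : ℝ) + 1) * (k + 2)) = 1 - 1 / ((n : ℝ) + 1) := by
    intro n
    induction n with
    | zero => simp
    | succ n ih =>
      rw [Finset.sum_range_succ, ih]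
      push_cast
      have h1 : (n : ℝ) + 1 ≠ 0 := by positivity
      have h2 : (n : ℝ) + 2 ≠ 0 := by positivity
      have h3 : (n : ℝ) + 1 + 1 ≠ 0 := by positivity
      field_simp
      ring
  simp_rw [h]
  have := (tendsto_one_div_add_atTop_nhds_zero_nat (𝕜 := ℝ)).const_sub 1
  simpa using this

lemma sum_range_telescope (n : ℕ) :
    ∑ k ∈ Finset.range n, 1 / (((k : ℝ) + 1) * (k + 2)) = 1 - 1 / ((n : ℝ) + 1) := by
  induction n with
  | zero => simp
  | succ n ih =>
    rw [Finset.sum_range_succ, ih]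
    push_cast
    have h1 : (n : ℝ) + 1 ≠ 0 := by positivity
    have h2 : (n : ℝ) + 2 ≠ 0 := by positivity
    have h3 : (n : ℝ) + 1 + 1 ≠ 0 := by positivity
    field_simp
    ring

/-- weight of a code -/
noncomputable def wt (x : ℕ × Bool) : ENNReal :=
  ENNReal.ofReal (1 / (2 * (((x.1 : ℝ) + 1) * (x.1 + 2))))

lemma wt_add (k : ℕ) : wt (k, true) + wt (k, false) =
    ENNReal.ofReal (1 / (((k : ℝ) + 1) * (k + 2))) := by
  unfold wt
  rw [← ENNReal.ofReal_add (by positivity) (by positivity)]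
  congr 1
  have h1 : (k : ℝ) + 1 ≠ 0 := by positivity
  have h2 : (k : ℝ) + 2 ≠ 0 := by positivity
  field_simp
  norm_num

/-- The law of the codes. -/
noncomputable def law : PMF (ℕ × Bool) := ⟨wt, by
  have h : ∑' x : ℕ × Bool, wt x = 1 := by
    have h1 : ∑' x : ℕ × Bool, wt x = ∑' (k : ℕ) (b : Bool), wt (k, b) :=
      ENNReal.tsum_prod (f := fun k b => wt (k, b))
    rw [h1]
    have h2 : ∀ k : ℕ, ∑' b : Bool, wt (k, b) = ENNReal.ofReal (1 / (((k : ℝ) + 1) * (k + 2))) := by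
      intro k
      rw [tsum_fintype, Fintype.sum_bool, wt_add]
    simp_rw [h2]
    rw [← ENNReal.ofReal_tsum_of_nonneg (fun k => by positivity) hasSum_telescope.summable,
      hasSum_telescope.tsum_eq, ENNReal.ofReal_one]
  rw [← h]
  exact ENNReal.summable.hasSum⟩

lemma law_apply (x : ℕ × Bool) : law x = wt x := rfl

lemma wt_pos (x : ℕ × Bool) : wt x ≠ 0 := by
  unfold wt
  rw [Ne, ENNReal.ofReal_eq_zero, not_le]
  positivity

lemma law_le (K : ℕ) : law.toMeasure {x : ℕ × Bool | x.1 ≤ K} =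
    ENNReal.ofReal (1 - 1 / ((K : ℝ) + 2)) := by
  have h : {x : ℕ × Bool | x.1 ≤ K} =
      ↑((Finset.range (K + 1)) ×ˢ (Finset.univ : Finset Bool)) := by
    ext x
    simp
  rw [h, PMF.toMeasure_apply_finset, Finset.sum_product]
  have h2 : ∀ k ∈ Finset.range (K + 1), ∑ b : Bool, law (k, b) =
      ENNReal.ofReal (1 / (((k : ℝ) + 1) * (k + 2))) := by
    intro k _
    rw [Fintype.sum_bool, law_apply, law_apply, wt_add]
  rw [Finset.sum_congr rfl h2, ← ENNReal.ofReal_sum_of_nonneg (fun k _ => by positivity),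
    sum_range_telescope]
  congr 2
  push_cast
  ring

lemma law_eq (K : ℕ) : law.toMeasure {x : ℕ × Bool | x.1 = K} =
    ENNReal.ofReal (1 / (((K : ℝ) + 1) * (K + 2))) := by
  have h : {x : ℕ × Bool | x.1 = K} =
      ↑(({K} : Finset ℕ) ×ˢ (Finset.univ : Finset Bool)) := by
    ext ⟨k, b⟩
    cases b <;> simp
  rw [h, PMF.toMeasure_apply_finset, Finset.sum_product, Finset.sum_singleton, Fintype.sum_bool,
    law_apply, law_apply, wt_add]

/-- The measure on code sequences. -/
noncomputable def PP : Measure (ℕ → ℕ × Bool) := Measure.infinitePi fun _ => law.toMeasure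

instance : IsProbabilityMeasure PP := by unfold PP; infer_instance

/-- no index larger than `K` before time `N K`. -/
def evA (K : ℕ) : Set (ℕ → ℕ × Bool) := {ω | ∀ i < N K, (ω i).1 ≤ K}

/-- the index `K` occurs twice before time `N K`. -/
def evB (K : ℕ) : Set (ℕ → ℕ × Bool) :=
  {ω | ∃ i < N K, ∃ j < N K, i ≠ j ∧ (ω i).1 = K ∧ (ω j).1 = K}

lemma PP_evA (K : ℕ) : PP (evA K) = ENNReal.ofReal ((1 - 1 / ((K : ℝ) + 2)) ^ (N K)) := by
  have h : evA K = Set.pi (↑(Finset.range (N K))) (fun _ => {x : ℕ × Bool | x.1 ≤ K}) := by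
    ext ω
    simp [evA, Set.mem_pi]
  rw [h, PP, Measure.infinitePi_pi _ (fun _ _ => MeasurableSet.of_discrete), Finset.prod_const,
    Finset.card_range, law_le, ENNReal.ofReal_pow]
  rw [sub_nonneg, div_le_one (by positivity)]
  have : (0 : ℝ) ≤ K := by positivity
  linarith

lemma PP_evB (K : ℕ) : PP (evB K) ≤
    ENNReal.ofReal ((N K : ℝ) ^ 2 * (1 / (((K : ℝ) + 1) * (K + 2))) ^ 2) := by
  have h : evB K ⊆ ⋃ x ∈ ((Finset.range (N K) ×ˢ Finset.range (N K)).filter fun x => x.1 ≠ x.2),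
      Set.pi (↑({x.1, x.2} : Finset ℕ)) (fun _ => {x : ℕ × Bool | x.1 = K}) := by
    rintro ω ⟨i, hi, j, hj, hij, h1, h2⟩
    simp only [Set.mem_iUnion]
    refine ⟨(i, j), by simp [hi, hj, hij], ?_⟩
    intro l hl
    simp only [Finset.coe_insert, Finset.coe_singleton, Set.mem_insert_iff,
      Set.mem_singleton_iff] at hl
    rcases hl with rfl | rfl
    · exact h1
    · exact h2
  refine (measure_mono h).trans ?_
  refine (measure_biUnion_finset_le _ _).trans ?_
  have h3 : ∀ x ∈ ((Finset.range (N K) ×ˢ Finset.range (N K)).filter fun x => x.1 ≠ x.2),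
      PP (Set.pi (↑({x.1, x.2} : Finset ℕ)) (fun _ => {x : ℕ × Bool | x.1 = K})) ≤
      ENNReal.ofReal ((1 / (((K : ℝ) + 1) * (K + 2))) ^ 2) := by
    intro x hx
    have hne : x.1 ≠ x.2 := (Finset.mem_filter.1 hx).2
    rw [PP, Measure.infinitePi_pi _ (fun _ _ => MeasurableSet.of_discrete), Finset.prod_const,
      Finset.card_pair hne, law_eq, ENNReal.ofReal_pow (by positivity)]
  refine (Finset.sum_le_card_nsmul _ _ _ h3).trans ?_
  rw [nsmul_eq_mul, ENNReal.ofReal_mul (by positivity)]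
  gcongr
  have h4 : (((Finset.range (N K) ×ˢ Finset.range (N K)).filter fun x => x.1 ≠ x.2).card : ENNReal) ≤
      ((N K) ^ 2 : ℕ) := by
    have : ((Finset.range (N K) ×ˢ Finset.range (N K)).filter fun x => x.1 ≠ x.2).card ≤
        (N K) ^ 2 := by
      refine (Finset.card_filter_le _ _).trans ?_
      rw [Finset.card_product, Finset.card_range, pow_two]
    exact_mod_cast this
  refine h4.trans ?_
  rw [← ENNReal.ofReal_natCast]
  push_cast
  exact le_rfl

lemma summable_bound : Summable fun K : ℕ => (1 - 1 / ((K : ℝ) + 2)) ^ (N K) +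
    (N K : ℝ) ^ 2 * (1 / (((K : ℝ) + 1) * (K + 2))) ^ 2 := by
  have hs : Summable fun K : ℕ => 325 * ((K + 2 : ℕ) : ℝ) ^ (-(3 / 2 : ℝ)) := by
    apply Summable.mul_left
    exact (summable_nat_add_iff 2).2 (Real.summable_nat_rpow.2 (by norm_num))
  refine Summable.of_nonneg_of_le (fun K => ?_) (fun K => ?_) hs
  · have : 0 ≤ 1 - 1 / ((K : ℝ) + 2) := by
      rw [sub_nonneg, div_le_one (by positivity)]
      have : (0 : ℝ) ≤ K := by positivity
      linarith
    positivity
  · set y : ℝ := (K : ℝ) + 2 with hy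
    have hy2 : (2 : ℝ) ≤ y := by rw [hy]; have : (0 : ℝ) ≤ K := by positivity
                                 linarith
    have hy0 : 0 < y := by linarith
    set L : ℝ := Real.log y with hL
    have hL0 : 0 ≤ L := Real.log_nonneg (by linarith)
    set s : ℕ := ⌈2 * L⌉₊ with hs
    have hs1 : 2 * L ≤ s := Nat.le_ceil _
    have hs2 : (s : ℝ) ≤ 2 * L + 1 := (Nat.ceil_lt_add_one (by positivity)).le
    have hN : (N K : ℝ) = y * s := by
      simp only [N, hs, hL, hy]
      push_cast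
      ring
    -- first term
    have h1 : (1 - 1 / y) ^ (N K) ≤ y ^ (-(2 : ℝ)) := by
      have e1 : 1 - 1 / y ≤ Real.exp (-(1 / y)) := by
        have := Real.add_one_le_exp (-(1 / y))
        linarith
      have e0 : 0 ≤ 1 - 1 / y := by
        rw [sub_nonneg, div_le_one hy0]; linarith
      calc (1 - 1 / y) ^ (N K) ≤ Real.exp (-(1 / y)) ^ (N K) := pow_le_pow_left₀ e0 e1 _
        _ = Real.exp ((N K : ℝ) * (-(1 / y))) := by rw [← Real.exp_nat_mul]
        _ = Real.exp (-(s : ℝ)) := by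
          rw [hN]; congr 1; field_simp
        _ ≤ Real.exp (-(2 * L)) := Real.exp_le_exp.2 (by linarith)
        _ = y ^ (-(2 : ℝ)) := by
          rw [Real.rpow_def_of_pos hy0, ← hL]; congr 1; ring
    have h1' : y ^ (-(2 : ℝ)) ≤ y ^ (-(3 / 2 : ℝ)) :=
      Real.rpow_le_rpow_of_exponent_le (by linarith) (by norm_num)
    -- second term
    have hlog : L ≤ 4 * y ^ (1 / 4 : ℝ) := by
      have := Real.log_le_rpow_div hy0.le (show (0 : ℝ) < 1 / 4 by norm_num)
      rw [← hL] at this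
      linarith
    have hone : (1 : ℝ) ≤ y ^ (1 / 4 : ℝ) := Real.one_le_rpow (by linarith) (by norm_num)
    have hs3 : (s : ℝ) ≤ 9 * y ^ (1 / 4 : ℝ) := by linarith
    have hs4 : (s : ℝ) ^ 2 ≤ 81 * y ^ (1 / 2 : ℝ) := by
      have e1 : (s : ℝ) ^ 2 ≤ (9 * y ^ (1 / 4 : ℝ)) ^ 2 := pow_le_pow_left₀ (by positivity) hs3 2
      have e2 : (9 * y ^ (1 / 4 : ℝ)) ^ 2 = 81 * y ^ (1 / 2 : ℝ) := by
        rw [mul_pow, ← Real.rpow_natCast (y ^ (1 / 4 : ℝ)) 2, ← Real.rpow_mul hy0.le]
        norm_num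
      linarith
    have hK1 : y / 2 ≤ (K : ℝ) + 1 := by rw [hy]; have : (0 : ℝ) ≤ K := by positivity
                                         linarith
    have hK1' : 0 < (K : ℝ) + 1 := by positivity
    have h2 : (N K : ℝ) ^ 2 * (1 / (((K : ℝ) + 1) * y)) ^ 2 ≤ 324 * y ^ (-(3 / 2 : ℝ)) := by
      have e1 : (N K : ℝ) ^ 2 * (1 / (((K : ℝ) + 1) * y)) ^ 2 = (s : ℝ) ^ 2 / ((K : ℝ) + 1) ^ 2 := by
        rw [hN]; field_simp
      have e2 : (s : ℝ) ^ 2 / ((K : ℝ) + 1) ^ 2 ≤ 81 * y ^ (1 / 2 : ℝ) / (y / 2) ^ 2 := by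
        gcongr
      have e3 : 81 * y ^ (1 / 2 : ℝ) / (y / 2) ^ 2 = 324 * y ^ (-(3 / 2 : ℝ)) := by
        have e4 : y ^ (-(3 / 2 : ℝ)) = y ^ (1 / 2 : ℝ) / y ^ 2 := by
          rw [← Real.rpow_natCast y 2, ← Real.rpow_sub hy0]; norm_num
        rw [e4]
        field_simp
        norm_num
      rw [e1]
      linarith
    have hcast : ((K + 2 : ℕ) : ℝ) = y := by push_cast; rfl
    rw [hcast]
    linarith

lemma tsum_ne_top : ∑' K : ℕ, PP (evA K ∪ evB K) ≠ ⊤ := by
  have h : ∀ K : ℕ, PP (evA K ∪ evB K) ≤ ENNReal.ofReal ((1 - 1 / ((K : ℝ) + 2)) ^ (N K) +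
    (N K : ℝ) ^ 2 * (1 / (((K : ℝ) + 1) * (K + 2))) ^ 2) := by
    intro K
    have h0 : 0 ≤ 1 - 1 / ((K : ℝ) + 2) := by
      rw [sub_nonneg, div_le_one (by positivity)]
      have : (0 : ℝ) ≤ K := by positivity
      linarith
    rw [ENNReal.ofReal_add (by positivity) (by positivity)]
    exact (measure_union_le _ _).trans (add_le_add (PP_evA K).le (PP_evB K))
  refine ne_top_of_le_ne_top ?_ (ENNReal.tsum_le_tsum h)
  exact summable_bound.tsum_ofReal_ne_top

/-- Almost surely the identity is eventually not in the tail semigroup (code space version). -/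
lemma ae_code : ∀ᵐ ω ∂PP, ∃ n : ℕ, (1 : ZwrZ) ∉ tailSemigroup (fun i => inc (ω i)) n := by
  filter_upwards [ae_eventually_notMem tsum_ne_top] with ω hω
  rw [eventually_atTop] at hω
  obtain ⟨K0, hK0⟩ := hω
  obtain ⟨t, ht, h⟩ := deterministic ω (K0 + 1) (by omega)
    (by
      intro K hK
      have := hK0 K (by omega)
      rw [Set.mem_union, not_or] at this
      have h1 := this.1
      simp only [evA, Set.mem_ofPred_eq, not_forall, not_le] at h1
      obtain ⟨i, hi, hi2⟩ := h1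
      exact ⟨i, hi, hi2⟩)
    (by
      intro K hK i hi j hj h1 h2
      have := hK0 K (by omega)
      rw [Set.mem_union, not_or] at this
      by_contra hne
      exact this.2 ⟨i, hi, j, hj, hne, h1, h2⟩)
  exact ⟨N (K0 + 1), one_notMem_of_pos t ht _ _ h⟩

/-! ### Measurability -/

lemma mem_tailSemigroup_iff {G : Type} [Group G] (ζ : ℕ → G) (n : ℕ) (g : G) :
    g ∈ tailSemigroup ζ n ↔
      ∃ l : List ℕ, l ≠ [] ∧ (∀ m ∈ l, n ≤ m) ∧ (l.map (walk ζ)).prod = g := by
  constructor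
  · intro h
    unfold tailSemigroup at h
    induction h using Subsemigroup.closure_induction with
    | mem x hx =>
      obtain ⟨m, hm, rfl⟩ := hx
      exact ⟨[m], by simp, by simp [hm], by simp⟩
    | mul x y _ _ hx hy =>
      obtain ⟨l1, h1, h1', h1''⟩ := hx
      obtain ⟨l2, h2, h2', h2''⟩ := hy
      refine ⟨l1 ++ l2, by simp [h1], ?_, ?_⟩
      · intro m hm
        rcases List.mem_append.1 hm with hm | hm
        · exact h1' m hm
        · exact h2' m hm
      · rw [List.map_append, List.prod_append, h1'', h2'']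
  · rintro ⟨l, hl, hln, rfl⟩
    induction l with
    | nil => exact absurd rfl hl
    | cons m l ih =>
      have hm : walk ζ m ∈ tailSemigroup ζ n :=
        Subsemigroup.subset_closure ⟨m, hln m (by simp), rfl⟩
      rcases l with _ | ⟨m', l⟩
      · simpa using hm
      · have := ih (by simp) (fun k hk => hln k (by simp [hk]))
        rw [List.map_cons, List.prod_cons]
        exact Subsemigroup.mul_mem _ hm this

lemma measurable_walk {G : Type} [Group G] [Countable G] [MeasurableSpace G]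
    [DiscreteMeasurableSpace G] (m : ℕ) : Measurable fun ζ : ℕ → G => walk ζ m := by
  induction m with
  | zero => exact measurable_const
  | succ m ih =>
    show Measurable fun ζ : ℕ → G => walk ζ m * ζ m
    exact ih.mul (measurable_pi_apply m)

lemma measurableSet_mem_tail {G : Type} [Group G] [Countable G] [MeasurableSpace G]
    [DiscreteMeasurableSpace G] (n : ℕ) (g : G) :
    MeasurableSet {ζ : ℕ → G | g ∈ tailSemigroup ζ n} := by
  have h : {ζ : ℕ → G | g ∈ tailSemigroup ζ n} =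
      ⋃ l : List ℕ, {ζ : ℕ → G | l ≠ [] ∧ (∀ m ∈ l, n ≤ m) ∧ (l.map (walk ζ)).prod = g} := by
    ext ζ
    simp only [Set.mem_iUnion, Set.mem_ofPred_eq]
    exact mem_tailSemigroup_iff ζ n g
  rw [h]
  refine MeasurableSet.iUnion fun l => ?_
  have hl : Measurable fun ζ : ℕ → G => (l.map (walk ζ)).prod := by
    induction l with
    | nil => simpa using measurable_const
    | cons m l ih =>
      simp only [List.map_cons, List.prod_cons]
      exact (measurable_walk m).mul ih
  by_cases h1 : l ≠ [] ∧ ∀ m ∈ l, n ≤ m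
  · have : {ζ : ℕ → G | l ≠ [] ∧ (∀ m ∈ l, n ≤ m) ∧ (l.map (walk ζ)).prod = g} =
        (fun ζ : ℕ → G => (l.map (walk ζ)).prod) ⁻¹' {g} := by
      ext ζ
      simp [h1.1]
      exact fun _ => h1.2
    rw [this]
    exact hl (MeasurableSet.of_discrete)
  · have : {ζ : ℕ → G | l ≠ [] ∧ (∀ m ∈ l, n ≤ m) ∧ (l.map (walk ζ)).prod = g} = ∅ := by
      ext ζ
      simp only [Set.mem_ofPred_eq, Set.mem_empty_iff_false, iff_false]
      rintro ⟨a, b, _⟩
      exact h1 ⟨a, b⟩
    rw [this]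
    exact MeasurableSet.empty

instance : Countable ZwrZ := by
  have h1 : Function.Injective fun p : LaurentPolynomial ℤ => p.coeff := fun p q h =>
    LaurentPolynomial.ext fun a => by rw [show p.coeff = q.coeff from h]
  have h2 : Countable (LaurentPolynomial ℤ) := h1.countable
  have h3 : Function.Injective fun g : ZwrZ => (g.lamp, g.pos) := by
    intro g g' h
    simp only [Prod.mk.injEq] at h
    exact ZwrZ.ext h.1 h.2
  exact h3.countable

/-- The step distribution of the counterexample. -/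
noncomputable def mu : PMF ZwrZ := law.map inc

lemma pathLaw_mu : pathLaw mu =
    @Measure.map (ℕ → ℕ × Bool) (ℕ → ZwrZ) _ (@MeasurableSpace.pi ℕ (fun _ => ZwrZ) (fun _ => ⊤))
      (fun ω i => inc (ω i)) PP := by
  let _ : MeasurableSpace ZwrZ := ⊤
  have h := Measure.infinitePi_map_pi (fun _ : ℕ => law.toMeasure) (f := fun _ : ℕ => inc)
    (fun _ => measurable_of_countable inc)
  have h2 : law.toMeasure.map inc = mu.toMeasure :=
    PMF.toMeasure_map inc law (measurable_of_countable inc)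
  rw [h2] at h
  exact h.symm

lemma ae_path : ∀ᵐ ζ ∂(pathLaw mu), ∃ n : ℕ, (1 : ZwrZ) ∉ tailSemigroup ζ n := by
  let _ : MeasurableSpace ZwrZ := ⊤
  rw [pathLaw_mu]
  have hm : Measurable fun (ω : ℕ → ℕ × Bool) (i : ℕ) => inc (ω i) :=
    measurable_pi_iff.2 fun i => (measurable_of_countable inc).comp (measurable_pi_apply i)
  refine (ae_map_iff hm.aemeasurable ?_).2 ae_code
  have : {ζ : ℕ → ZwrZ | ∃ n : ℕ, (1 : ZwrZ) ∉ tailSemigroup ζ n} =
      ⋃ n : ℕ, {ζ : ℕ → ZwrZ | (1 : ZwrZ) ∈ tailSemigroup ζ n}ᶜ := by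
    ext ζ
    simp
  rw [this]
  exact MeasurableSet.iUnion fun n => (measurableSet_mem_tail n 1).compl

lemma tailSemigroup_anti {G : Type} [Group G] (ζ : ℕ → G) {n m : ℕ} (h : n ≤ m) :
    tailSemigroup ζ m ≤ tailSemigroup ζ n :=
  Subsemigroup.closure_mono fun _ ⟨k, hk, hk2⟩ => ⟨k, h.trans hk, hk2⟩

lemma law_ne_zero (x : ℕ × Bool) : law x ≠ 0 := wt_pos x

lemma inc_not (x : ℕ × Bool) : inc (x.1, !x.2) = (inc x)⁻¹ := by
  obtain ⟨k, b⟩ := x
  cases b <;> simp [inc]

lemma mu_symm (g : ZwrZ) : mu g⁻¹ = mu g := by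
  classical
  unfold mu
  rw [PMF.map_apply, PMF.map_apply]
  let e : ℕ × Bool ≃ ℕ × Bool :=
    { toFun := fun x => (x.1, !x.2)
      invFun := fun x => (x.1, !x.2)
      left_inv := fun x => by simp
      right_inv := fun x => by simp }
  rw [← Equiv.tsum_eq e]
  refine tsum_congr fun x => ?_
  have h1 : inc (e x) = (inc x)⁻¹ := inc_not x
  have h2 : law (e x) = law x := rfl
  rw [h1, h2, inv_inj]

lemma mu_inc_ne_zero (x : ℕ × Bool) : mu (inc x) ≠ 0 := by
  rw [← PMF.mem_support_iff]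
  unfold mu
  rw [PMF.support_map]
  exact ⟨x, (PMF.mem_support_iff _ _).2 (law_ne_zero x), rfl⟩

lemma mu_ne_zero_imp {s : ZwrZ} (h : mu s ≠ 0) : ∃ x, inc x = s := by
  rw [← PMF.mem_support_iff] at h
  unfold mu at h
  rw [PMF.support_map] at h
  obtain ⟨x, _, hx⟩ := h
  exact ⟨x, hx⟩

lemma mu_stepLaw : StepLaw (fun s => (mu s).toReal) where
  nonneg := fun s => ENNReal.toReal_nonneg
  sum_one := by
    have h := ENNReal.hasSum_toReal (f := fun s => mu s) (by rw [PMF.tsum_coe]; simp)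
    have h2 : ∑' s, (mu s).toReal = 1 := by
      rw [← ENNReal.tsum_toReal_eq (fun s => PMF.apply_ne_top mu s), PMF.tsum_coe]
      simp
    rwa [h2] at h
  supp := by
    intro s hs
    have h1 : mu s ≠ 0 := by
      intro h
      exact hs (by simp [h])
    obtain ⟨⟨k, b⟩, rfl⟩ := mu_ne_zero_imp h1
    rcases k with _ | _ | k
    · left; cases b <;> simp [inc, gen, aa]
    · right
      cases b
      · right; simp [inc, gen]
      · left; simp [inc, gen]
    · left; cases b <;> simp [inc, gen]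
  symm := by rw [mu_symm]
  tt_pos := ENNReal.toReal_pos (mu_inc_ne_zero (1, true)) (PMF.apply_ne_top _ _)
  aa_pos := ENNReal.toReal_pos (mu_inc_ne_zero (0, true)) (PMF.apply_ne_top _ _)

lemma mu_liouville : IsLiouvilleMeasure mu := by
  intro f hb hf
  refine ⟨f 1, fun g => liouville_of_stepLaw mu_stepLaw f hb ?_ g 1⟩
  intro g
  rw [hf g]
  obtain ⟨B, hB⟩ := hb
  have : Summable fun s => (mu s).toReal * f (g * s) := by
    refine Summable.of_norm_bounded (g := fun s => (mu s).toReal * B)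
      (mu_stepLaw.sum_one.summable.mul_right B) ?_
    intro s
    rw [norm_mul, Real.norm_of_nonneg ENNReal.toReal_nonneg]
    exact mul_le_mul_of_nonneg_left (hB _) ENNReal.toReal_nonneg
  exact this.hasSum

lemma mu_generates : Subgroup.closure mu.support = ⊤ := by
  rw [eq_top_iff]
  intro g _
  refine mem_of_gens _ ?_ ?_ g
  · exact Subgroup.subset_closure ((PMF.mem_support_iff _ _).2 (mu_inc_ne_zero (0, true)))
  · exact Subgroup.subset_closure ((PMF.mem_support_iff _ _).2 (mu_inc_ne_zero (1, true)))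

open Classical in
/-- The standard symmetric generating set. -/
noncomputable def SS : Finset ZwrZ := {aa, aa⁻¹, tt, tt⁻¹}

lemma mem_SS (s : ZwrZ) : s ∈ SS ↔ s = aa ∨ s = aa⁻¹ ∨ s = tt ∨ s = tt⁻¹ := by
  simp [SS]

lemma aa_ne : (aa : ZwrZ) ≠ aa⁻¹ := by
  intro h
  have h1 := congrArg (fun g : ZwrZ => ev 1 g.lamp) h
  simp only [aa, inv_lamp, map_one, neg_zero, LaurentPolynomial.T_zero, one_mul, map_neg] at h1
  norm_num at h1

lemma SS_card : SS.card = 4 := by
  classical
  have h1 : (aa : ZwrZ) ≠ tt := by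
    intro h
    have := congrArg ZwrZ.pos h
    simp [aa, tt] at this
  have h2 : (aa : ZwrZ) ≠ tt⁻¹ := by
    intro h
    have := congrArg ZwrZ.pos h
    simp [aa, tt] at this
  have h3 : (aa⁻¹ : ZwrZ) ≠ tt := by
    intro h
    have := congrArg ZwrZ.pos h
    simp [aa, tt] at this
  have h4 : (aa⁻¹ : ZwrZ) ≠ tt⁻¹ := by
    intro h
    exact h1 (inv_injective h)
  unfold SS
  rw [Finset.card_insert_of_notMem, Finset.card_insert_of_notMem, Finset.card_pair tt_ne]
  · simp [h3, h4]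
  · simp [h1, h2, aa_ne]

open Classical in
lemma SS_stepLaw : StepLaw (fun s => if s ∈ SS then (1 / 4 : ℝ) else 0) where
  nonneg := fun s => by positivity
  sum_one := by
    have h := hasSum_sum_of_ne_finset_zero (f := fun s => if s ∈ SS then (1 / 4 : ℝ) else 0)
      (s := SS) (fun s hs => by simp [hs]) (L := SummationFilter.unconditional _)
    have h2 : ∑ s ∈ SS, (if s ∈ SS then (1 / 4 : ℝ) else 0) = 1 := by
      rw [Finset.sum_congr rfl (fun s hs => if_pos hs), Finset.sum_const, SS_card]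
      norm_num
    rwa [h2] at h
  supp := by
    intro s hs
    have h1 : s ∈ SS := by
      by_contra h
      exact hs (by simp [h])
    rcases (mem_SS s).1 h1 with rfl | rfl | rfl | rfl
    · left; simp [aa]
    · left; simp [aa]
    · right; left; rfl
    · right; right; rfl
  symm := by
    have h1 : tt ∈ SS := (mem_SS _).2 (by simp)
    have h2 : tt⁻¹ ∈ SS := (mem_SS _).2 (by simp)
    simp [h1, h2]
  tt_pos := by
    have h1 : tt ∈ SS := (mem_SS _).2 (by simp)
    simp [h1]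
  aa_pos := by
    have h1 : aa ∈ SS := (mem_SS _).2 (by simp)
    simp [h1]

lemma SS_liouville : IsLiouville SS := by
  classical
  intro f hb hf
  refine ⟨f 1, fun g => liouville_of_stepLaw SS_stepLaw f hb ?_ g 1⟩
  intro g
  have h := hasSum_sum_of_ne_finset_zero
    (f := fun s => (if s ∈ SS then (1 / 4 : ℝ) else 0) * f (g * s))
    (s := SS) (fun s hs => by simp [hs]) (L := SummationFilter.unconditional _)
  have h2 : ∑ s ∈ SS, (if s ∈ SS then (1 / 4 : ℝ) else 0) * f (g * s) = f g := by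
    rw [hf g, SS_card, Finset.mul_sum]
    refine Finset.sum_congr rfl fun s hs => ?_
    rw [if_pos hs]
    norm_num
  rwa [h2] at h

lemma SS_generates : Subgroup.closure (SS : Set ZwrZ) = ⊤ := by
  rw [eq_top_iff]
  intro g _
  refine mem_of_gens _ ?_ ?_ g
  · exact Subgroup.subset_closure ((mem_SS _).2 (by simp))
  · exact Subgroup.subset_closure ((mem_SS _).2 (by simp))

lemma SS_symm : ∀ s ∈ SS, s⁻¹ ∈ SS := by
  intro s hs
  rw [mem_SS] at hs ⊢
  rcases hs with rfl | rfl | rfl | rfl <;> simp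

lemma one_notMem_SS : (1 : ZwrZ) ∉ SS := by
  intro h
  rw [mem_SS] at h
  rcases h with h | h | h | h
  · have h1 := congrArg (fun g : ZwrZ => ev 1 g.lamp) h
    simp [aa] at h1
  · have h1 := congrArg (fun g : ZwrZ => ev 1 g.lamp) h
    simp [aa] at h1
  · have h1 := congrArg ZwrZ.pos h
    simp [tt] at h1
  · have h1 := congrArg ZwrZ.pos h
    simp [tt] at h1

/-- There are a finitely generated group `G` with a finite symmetric generating set `S` with
respect to which `G` is Liouville, and a symmetric probability measure `μ` on `G` with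
`⟨supp μ⟩ = G`, such that `(G, μ)` is not algebraically recurrent. Moreover `μ` itself has the
Liouville property, and almost surely the identity lies in only finitely many of the semigroups
`S_n`. -/
theorem main :
    ∃ (G : Type) (_ : Group G) (S : Finset G) (μ : PMF G),
      (1 : G) ∉ S ∧ (∀ s ∈ S, s⁻¹ ∈ S) ∧ Subgroup.closure (S : Set G) = ⊤ ∧ IsLiouville S ∧
      (∀ g, μ g⁻¹ = μ g) ∧ Subgroup.closure μ.support = ⊤ ∧ IsLiouvilleMeasure μ ∧
      (∃ n : ℕ, 1 ≤ n ∧ 0 < pathLaw μ {ζ | tailSemigroup ζ n ≠ ⊤}) ∧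
      (∀ᵐ ζ ∂(pathLaw μ), ∃ N : ℕ, ∀ n, N ≤ n → (1 : G) ∉ tailSemigroup ζ n) := by
  have hae : ∀ᵐ ζ ∂(pathLaw mu), ∃ N : ℕ, ∀ n, N ≤ n → (1 : ZwrZ) ∉ tailSemigroup ζ n := by
    filter_upwards [ae_path] with ζ hζ
    obtain ⟨N, hN⟩ := hζ
    exact ⟨N, fun n hn h => hN (tailSemigroup_anti ζ hn h)⟩
  refine ⟨ZwrZ, inferInstance, SS, mu, one_notMem_SS, SS_symm, SS_generates, SS_liouville,
    mu_symm, mu_generates, mu_liouville, ?_, hae⟩
  by_contra hcon
  push Not at hcon
  have h0 : ∀ n : ℕ, 1 ≤ n → ∀ᵐ ζ ∂(pathLaw mu), tailSemigroup ζ n = ⊤ := by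
    intro n hn
    have := hcon n hn
    rw [nonpos_iff_eq_zero] at this
    exact this
  have h1 : ∀ᵐ ζ ∂(pathLaw mu), ∀ n : ℕ, tailSemigroup ζ (n + 1) = ⊤ :=
    ae_all_iff.2 fun n => h0 (n + 1) (by omega)
  have hprob : @IsProbabilityMeasure _ (@MeasurableSpace.pi ℕ (fun _ => ZwrZ) (fun _ => ⊤))
      (pathLaw mu) := by
    let _ : MeasurableSpace ZwrZ := ⊤
    unfold pathLaw
    infer_instance
  have h2 : ∀ᵐ ζ ∂(pathLaw mu), False := by
    filter_upwards [hae, h1] with ζ ha hb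
    obtain ⟨N, hN⟩ := ha
    apply hN (N + 1) (by omega)
    rw [hb N]
    exact Subsemigroup.mem_top _
  rw [ae_iff] at h2
  simp at h2

end Pool.Agent.MP_646863_pr
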